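import Mathlib

/-!
# Ergodic Lebesgue differentiation without a maximal inequality on the space

The file proves the maximal ergodic theorem, Birkhoff's pointwise ergodic theorem and the
integrability of the ergodic maximal function of an `L^p` function (`p > 1`), and deduces
that the Lebesgue differentiation property alone gives the joint limit of the averages over
balls of the ergodic averages: with `g_K = sup_{k ≥ K} |A_k f - f*|`, which is integrable, the
limsup of the joint averages is at most `g_K(x)`, and `g_K → 0` almost everywhere.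
-/

open MeasureTheory Filter Topology Set
open scoped ENNReal NNReal

namespace Pool.Agent.Results.MP_894476_an.JointLimit

section birkhoff
variable {X : Type*}

/-- auxiliary recursion: a majorant of the first `n+1` Birkhoff sums -/
noncomputable def bmax (T : X → X) (g : X → ℝ) : ℕ → X → ℝ
  | 0 => g
  | (n + 1) => fun x => g x + max 0 (bmax T g n (T x))

theorem bmax_succ (T : X → X) (g : X → ℝ) (n : ℕ) (x : X) :
    bmax T g (n + 1) x = g x + max 0 (bmax T g n (T x)) := rfl

theorem le_bmax (T : X → X) (g : X → ℝ) (n : ℕ) (x : X) : g x ≤ bmax T g n x := by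
  cases n with
  | zero => exact le_rfl
  | succ n => rw [bmax_succ]; linarith [le_max_left 0 (bmax T g n (T x))]

theorem bmax_le_succ (T : X → X) (g : X → ℝ) (n : ℕ) : ∀ x, bmax T g n x ≤ bmax T g (n + 1) x := by
  induction n with
  | zero => intro x; exact le_bmax T g 1 x
  | succ n ih =>
    intro x
    rw [bmax_succ, bmax_succ T g (n + 1)]
    have := max_le_max (le_refl (0:ℝ)) (ih (T x))
    linarith

theorem bmax_mono (T : X → X) (g : X → ℝ) (x : X) : Monotone (fun n => bmax T g n x) :=
  monotone_nat_of_le_succ (fun n => bmax_le_succ T g n x)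

theorem birkhoffSum_le_bmax (T : X → X) (g : X → ℝ) (n : ℕ) :
    ∀ k ≤ n, ∀ x, birkhoffSum T g (k + 1) x ≤ bmax T g n x := by
  induction n with
  | zero =>
    intro k hk x
    obtain rfl : k = 0 := by omega
    simp [bmax]
  | succ n ih =>
    intro k hk x
    cases k with
    | zero => simpa using le_bmax T g (n + 1) x
    | succ k =>
      rw [birkhoffSum_succ', bmax_succ]
      have := ih k (by omega) (T x)
      linarith [le_max_right 0 (bmax T g n (T x))]

variable [MeasurableSpace X] {μ : Measure X} {T : X → X}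

theorem measurable_bmax (hT : Measurable T) {g : X → ℝ} (hg : Measurable g) (n : ℕ) :
    Measurable (bmax T g n) := by
  induction n with
  | zero => exact hg
  | succ n ih =>
    show Measurable (fun x => g x + max 0 (bmax T g n (T x)))
    exact hg.add (measurable_const.max (ih.comp hT))

theorem integrable_bmax (hT : MeasurePreserving T μ μ) {g : X → ℝ} (hg : Integrable g μ) (n : ℕ) :
    Integrable (bmax T g n) μ := by
  induction n with
  | zero => exact hg
  | succ n ih =>
    show Integrable (fun x => g x + max 0 (bmax T g n (T x))) μ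
    have h1 : Integrable (fun x => bmax T g n (T x)) μ := hT.integrable_comp_of_integrable ih
    have h2 : Integrable (fun x => max (bmax T g n (T x)) 0) μ := h1.pos_part
    refine hg.add ?_
    simpa [max_comm] using h2

/-- maximal ergodic theorem -/
theorem maximal_ergodic (hT : MeasurePreserving T μ μ) {g : X → ℝ} (hgm : Measurable g)
    (hg : Integrable g μ) (n : ℕ) :
    0 ≤ ∫ x in {x | 0 < bmax T g n x}, g x ∂μ := by
  set F := bmax T g n with hF
  have hFi : Integrable F μ := integrable_bmax hT hg n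
  have hFm : Measurable F := measurable_bmax hT.measurable hgm n
  set P : X → ℝ := fun x => max (F x) 0 with hP
  have hPi : Integrable P μ := hFi.pos_part
  have hPT : Integrable (fun x => P (T x)) μ := hT.integrable_comp_of_integrable hPi
  have hS : MeasurableSet {x | 0 < F x} := measurableSet_lt measurable_const hFm
  have h0 : ∫ x, (P x - P (T x)) ∂μ = 0 := by
    rw [integral_sub hPi hPT]
    have : ∫ x, P (T x) ∂μ = ∫ x, P x ∂μ := by
      have h := integral_map (μ := μ) (φ := T) hT.measurable.aemeasurable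
        (f := P) (by rw [hT.map_eq]; exact hPi.aestronglyMeasurable)
      rw [hT.map_eq] at h
      exact h.symm
    rw [this, sub_self]
  have hsplit := integral_add_compl hS (hPi.sub hPT)
  have h1 : ∫ x in {x | 0 < F x}ᶜ, (P x - P (T x)) ∂μ ≤ 0 := by
    apply setIntegral_nonpos hS.compl
    intro x hx
    have : F x ≤ 0 := by simpa using hx
    simp only [hP, max_eq_right this]
    linarith [le_max_right (F (T x)) 0]
  have h2 : ∫ x in {x | 0 < F x}, (P x - P (T x)) ∂μ ≤ ∫ x in {x | 0 < F x}, g x ∂μ := by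
    refine setIntegral_mono_on (f := fun x => P x - P (T x)) (hPi.sub hPT).integrableOn
      hg.integrableOn hS ?_
    intro x hx
    have hx' : 0 < F x := hx
    simp only [hP, max_eq_left hx'.le]
    cases n with
    | zero =>
      have : F x = g x := rfl
      linarith [le_max_right (F (T x)) 0]
    | succ n =>
      have e : F x = g x + max 0 (bmax T g n (T x)) := rfl
      have := bmax_le_succ T g n (T x)
      have h3 : max 0 (bmax T g n (T x)) ≤ max (F (T x)) 0 := by
        rw [max_comm]; exact max_le_max this le_rfl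
      linarith
  have h3 : ∫ x in {x | 0 < F x}, (P x - P (T x)) ∂μ +
      ∫ x in {x | 0 < F x}ᶜ, (P x - P (T x)) ∂μ = 0 := hsplit.trans h0
  linarith

/-- one half of Birkhoff's pointwise ergodic theorem: the Birkhoff sums of
`f - E[f|I] - ε` are bounded above almost everywhere -/
theorem ae_bddAbove_birkhoffSum [IsFiniteMeasure μ] (hT : MeasurePreserving T μ μ)
    {f : X → ℝ} (hfm : Measurable f) (hf : Integrable f μ) {ε : ℝ} (hε : 0 < ε) :
    ∀ᵐ x ∂μ, BddAbove (range (fun n => birkhoffSum T
      (fun y => f y - (μ[f | MeasurableSpace.invariants T]) y - ε) (n + 1) x)) := by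
  have hmle : MeasurableSpace.invariants T ≤ ‹MeasurableSpace X› := MeasurableSpace.invariants_le T
  set g : X → ℝ := fun y => f y - (μ[f | MeasurableSpace.invariants T]) y - ε with hgdef
  have hcm : Measurable (μ[f | MeasurableSpace.invariants T]) := (stronglyMeasurable_condExp.mono hmle).measurable
  have hgm : Measurable g := (hfm.sub hcm).sub_const ε
  have hgi : Integrable g μ := (hf.sub integrable_condExp).sub (integrable_const ε)
  set A : Set X := {x | Tendsto (fun n => bmax T g n x) atTop atTop} with hA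
  have hAm : MeasurableSet A := by
    have : A = ⋂ (k : ℕ), ⋃ (n : ℕ), {x | (k : ℝ) ≤ bmax T g n x} := by
      ext x
      simp only [hA, mem_ofPred_eq, mem_iInter, mem_iUnion]
      constructor
      · intro h k
        exact (tendsto_atTop.1 h k).exists
      · intro h
        apply tendsto_atTop_atTop_of_monotone (bmax_mono T g x)
        intro b
        obtain ⟨k, hk⟩ := exists_nat_ge b
        obtain ⟨n, hn⟩ := h k
        exact ⟨n, hk.trans hn⟩
    rw [this]
    exact MeasurableSet.iInter fun k => MeasurableSet.iUnion fun n =>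
      measurableSet_le measurable_const (measurable_bmax hT.measurable hgm n)
  have hAinv : T ⁻¹' A = A := by
    ext x
    simp only [hA, mem_preimage, mem_ofPred_eq]
    constructor
    · intro h
      rw [← tendsto_add_atTop_iff_nat 1]
      refine tendsto_atTop_mono (fun n => ?_) (tendsto_atTop_add_const_left _ (g x) h)
      rw [bmax_succ]
      linarith [le_max_right 0 (bmax T g n (T x))]
    · intro h
      have h1 := (tendsto_add_atTop_iff_nat 1).2 h
      have h2 : Tendsto (fun n => max 0 (bmax T g n (T x))) atTop atTop := by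
        have := tendsto_atTop_add_const_left _ (-g x) h1
        refine this.congr (fun n => ?_)
        rw [bmax_succ]; ring
      apply tendsto_atTop_atTop_of_monotone (bmax_mono T g (T x))
      intro b
      obtain ⟨n, hn⟩ := (tendsto_atTop.1 h2 (max b 1)).exists
      refine ⟨n, ?_⟩
      rcases le_or_gt (bmax T g n (T x)) 0 with h3 | h3
      · rw [max_eq_left h3] at hn
        linarith [le_max_right b 1]
      · rw [max_eq_right h3.le] at hn
        exact (le_max_left _ _).trans hn
  have hAinvm : MeasurableSet[MeasurableSpace.invariants T] A := ⟨hAm, hAinv⟩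
  -- the integral of `g` over `A` is `-ε μ(A)`
  have hgA : ∫ x in A, g x ∂μ = - (ε * μ.real A) := by
    have h1 : ∫ x in A, g x ∂μ = ∫ x in A, (f x - (μ[f | MeasurableSpace.invariants T]) x) ∂μ - ∫ x in A, ε ∂μ :=
      integral_sub (hf.sub integrable_condExp).integrableOn (integrable_const ε).integrableOn
    have h2 : ∫ x in A, (f x - (μ[f | MeasurableSpace.invariants T]) x) ∂μ = ∫ x in A, f x ∂μ - ∫ x in A, (μ[f | MeasurableSpace.invariants T]) x ∂μ :=
      integral_sub hf.integrableOn integrable_condExp.integrableOn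
    rw [h1, h2, setIntegral_condExp hmle hf hAinvm, sub_self, setIntegral_const, smul_eq_mul]
    ring
  -- the integral of `g` over `A` is nonnegative
  have hgA' : 0 ≤ ∫ x in A, g x ∂μ := by
    have hlim : Tendsto (fun n => ∫ x in A, (bmax T g (n + 1) x - bmax T g n (T x)) ∂μ) atTop
        (𝓝 (∫ x in A, g x ∂μ)) := by
      have hFi : Integrable (fun x => |g x| + |g (T x)|) μ :=
        hgi.abs.add (hT.integrable_comp_of_integrable hgi.abs)
      refine tendsto_integral_of_dominated_convergence (fun x => |g x| + |g (T x)|)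
        (fun n => ?_) hFi.integrableOn (fun n => ?_) ?_
      · exact ((measurable_bmax hT.measurable hgm (n+1)).sub
          ((measurable_bmax hT.measurable hgm n).comp hT.measurable)).aestronglyMeasurable
      · refine Eventually.of_forall (fun x => ?_)
        rw [bmax_succ, Real.norm_eq_abs]
        have h1 := le_bmax T g n (T x)
        rcases le_or_gt (bmax T g n (T x)) 0 with h3 | h3
        · rw [max_eq_left h3, abs_le]
          have := neg_abs_le (g (T x))
          have := neg_abs_le (g x)
          have := le_abs_self (g x)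
          have := le_abs_self (g (T x))
          constructor <;> linarith
        · rw [max_eq_right h3.le]
          have : g x + bmax T g n (T x) - bmax T g n (T x) = g x := by ring
          rw [this]
          linarith [abs_nonneg (g (T x))]
      · filter_upwards [ae_restrict_mem hAm] with x hx
        have hx' : Tendsto (fun n => bmax T g n (T x)) atTop atTop := by
          have : x ∈ T ⁻¹' A := by rw [hAinv]; exact hx
          exact this
        refine tendsto_const_nhds.congr' ?_
        filter_upwards [tendsto_atTop.1 hx' 0] with n hn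
        rw [bmax_succ, max_eq_right hn]; ring
    refine ge_of_tendsto' hlim (fun n => ?_)
    have hi1 : Integrable (bmax T g (n+1)) μ := integrable_bmax hT hgi (n+1)
    have hi2 : Integrable (bmax T g n) μ := integrable_bmax hT hgi n
    have hi2' : Integrable (fun x => bmax T g n (T x)) μ := hT.integrable_comp_of_integrable hi2
    have e1 : ∫ x in A, (bmax T g (n + 1) x - bmax T g n (T x)) ∂μ =
        ∫ x in A, bmax T g (n + 1) x ∂μ - ∫ x in A, bmax T g n (T x) ∂μ :=
      integral_sub hi1.integrableOn hi2'.integrableOn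
    have e2 : ∫ x in A, bmax T g n (T x) ∂μ = ∫ x in A, bmax T g n x ∂μ := by
      have h := setIntegral_map (μ := μ) (g := T) (f := bmax T g n) hAm
        (by rw [hT.map_eq]; exact hi2.aestronglyMeasurable) hT.measurable.aemeasurable
      rw [hT.map_eq, hAinv] at h
      exact h.symm
    rw [e1, e2, sub_nonneg]
    exact setIntegral_mono hi2.integrableOn hi1.integrableOn (fun x => bmax_le_succ T g n x)
  have hμA : μ A = 0 := by
    have h1 : ε * μ.real A ≤ 0 := by linarith
    have h2 : μ.real A ≤ 0 := by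
      by_contra h
      rw [not_le] at h
      have := mul_pos hε h
      linarith
    have h3 : μ.real A = 0 := le_antisymm h2 measureReal_nonneg
    rwa [measureReal_eq_zero_iff] at h3
  have hae : ∀ᵐ x ∂μ, x ∉ A := by
    rw [ae_iff]; simpa using hμA
  filter_upwards [hae] with x hx
  by_contra hb
  apply hx
  apply tendsto_atTop_atTop_of_monotone (bmax_mono T g x)
  intro b
  rw [not_bddAbove_iff] at hb
  obtain ⟨y, ⟨n, rfl⟩, hn⟩ := hb b
  exact ⟨n, hn.le.trans (birkhoffSum_le_bmax T g n n le_rfl x)⟩

/-- the limsup half of the pointwise ergodic theorem -/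
theorem ae_eventually_birkhoffAverage_le [IsFiniteMeasure μ] (hT : MeasurePreserving T μ μ)
    {f : X → ℝ} (hfm : Measurable f) (hf : Integrable f μ) :
    ∀ᵐ x ∂μ, ∀ ε > 0, ∀ᶠ n : ℕ in atTop,
      birkhoffAverage ℝ T f n x ≤ (μ[f | MeasurableSpace.invariants T]) x + ε := by
  have hmle : MeasurableSpace.invariants T ≤ ‹MeasurableSpace X› := MeasurableSpace.invariants_le T
  have hcm : Measurable[MeasurableSpace.invariants T] (μ[f | MeasurableSpace.invariants T]) := stronglyMeasurable_condExp.measurable
  have hcT : (μ[f | MeasurableSpace.invariants T]) ∘ T = (μ[f | MeasurableSpace.invariants T]) := MeasurableSpace.comp_eq_of_measurable_invariants hcm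
  have key : ∀ᵐ x ∂μ, ∀ k : ℕ, BddAbove (range (fun n => birkhoffSum T
      (fun y => f y - (μ[f | MeasurableSpace.invariants T]) y - (1 / ((k:ℝ) + 1) / 2)) (n + 1) x)) := by
    rw [ae_all_iff]
    intro k
    exact ae_bddAbove_birkhoffSum hT hfm hf (by positivity)
  filter_upwards [key] with x hx ε hε
  obtain ⟨k, hk⟩ := exists_nat_one_div_lt hε
  obtain ⟨C, hC⟩ := hx k
  set δ : ℝ := 1 / ((k:ℝ) + 1) / 2 with hδ
  have hδ0 : 0 < δ := by positivity
  have hδε : δ + δ < ε := by rw [hδ]; linarith
  -- C / n ≤ δ eventually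
  have hev : ∀ᶠ n : ℕ in atTop, C / (n : ℝ) ≤ δ := by
    have : Tendsto (fun n : ℕ => C / (n : ℝ)) atTop (𝓝 0) := tendsto_const_div_atTop_nhds_zero_nat C
    exact (this.eventually (gt_mem_nhds hδ0)).mono (fun n hn => hn.le)
  filter_upwards [hev, eventually_ge_atTop 1] with n hn hn1
  have hn0 : (0:ℝ) < n := by exact_mod_cast hn1
  have hsum : birkhoffSum T (fun y => f y - (μ[f | MeasurableSpace.invariants T]) y - δ) n x =
      birkhoffSum T f n x - n * (μ[f | MeasurableSpace.invariants T]) x - n * δ := by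
    have e : ∀ k, (μ[f | MeasurableSpace.invariants T]) (T^[k] x) = (μ[f | MeasurableSpace.invariants T]) x := fun k =>
      congrFun (Function.iterate_invariant hcT k) x
    simp [birkhoffSum, Finset.sum_sub_distrib, e]
  have hle : birkhoffSum T (fun y => f y - (μ[f | MeasurableSpace.invariants T]) y - δ) n x ≤ C := by
    obtain ⟨j, rfl⟩ : ∃ j, n = j + 1 := ⟨n - 1, by omega⟩
    exact hC ⟨j, rfl⟩
  rw [hsum] at hle
  rw [birkhoffAverage, smul_eq_mul]
  have h2 : birkhoffSum T f n x ≤ n * (μ[f | MeasurableSpace.invariants T]) x + n * δ + C := by linarith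
  calc (n:ℝ)⁻¹ * birkhoffSum T f n x ≤ (n:ℝ)⁻¹ * (n * (μ[f | MeasurableSpace.invariants T]) x + n * δ + C) := by
        apply mul_le_mul_of_nonneg_left h2; positivity
    _ = (μ[f | MeasurableSpace.invariants T]) x + δ + C / n := by field_simp
    _ ≤ (μ[f | MeasurableSpace.invariants T]) x + ε := by linarith

/-- Birkhoff's pointwise ergodic theorem for real functions -/
theorem birkhoff_real [IsFiniteMeasure μ] (hT : MeasurePreserving T μ μ)
    {f : X → ℝ} (hfm : Measurable f) (hf : Integrable f μ) :
    ∀ᵐ x ∂μ, Tendsto (fun n => birkhoffAverage ℝ T f n x) atTop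
      (𝓝 ((μ[f | MeasurableSpace.invariants T]) x)) := by
  have h1 := ae_eventually_birkhoffAverage_le hT hfm hf
  have h2 := ae_eventually_birkhoffAverage_le hT hfm.neg hf.neg
  have h3 : μ[-f | MeasurableSpace.invariants T] =ᵐ[μ] -μ[f | MeasurableSpace.invariants T] :=
    condExp_neg f _
  filter_upwards [h1, h2, h3] with x hx1 hx2 hx3
  rw [Metric.tendsto_nhds]
  intro ε hε
  filter_upwards [hx1 (ε/2) (by positivity), hx2 (ε/2) (by positivity)] with n hn1 hn2
  have e : birkhoffAverage ℝ T (-f) n x = - birkhoffAverage ℝ T f n x := by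
    rw [birkhoffAverage_neg]; rfl
  have e2 : birkhoffAverage ℝ T (fun a => - f a) n x = - birkhoffAverage ℝ T f n x := e
  rw [Real.dist_eq, abs_lt]
  simp only [Pi.neg_apply] at hx3
  have hn2' : - birkhoffAverage ℝ T f n x ≤ -(μ[f | MeasurableSpace.invariants T]) x + ε/2 := by
    rw [← hx3, ← e]; exact hn2
  constructor <;> linarith


/-- weak type (1,1) inequality for the ergodic maximal function of a nonnegative function -/
theorem weak_one_one [IsFiniteMeasure μ] (hT : MeasurePreserving T μ μ)
    {f : X → ℝ} (hfm : Measurable f) (hf : Integrable f μ) (hf0 : ∀ x, 0 ≤ f x)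
    {t : ℝ} (ht : 0 < t) :
    μ {x | ∃ k : ℕ, t < birkhoffAverage ℝ T f (k + 1) x} ≤ ENNReal.ofReal ((∫ x, f x ∂μ) / t) := by
  set g : X → ℝ := fun y => f y - t with hgdef
  have hgm : Measurable g := hfm.sub_const t
  have hgi : Integrable g μ := hf.sub (integrable_const t)
  set E : ℕ → Set X := fun n => {x | 0 < bmax T g n x} with hE
  have hEm : ∀ n, MeasurableSet (E n) := fun n =>
    measurableSet_lt measurable_const (measurable_bmax hT.measurable hgm n)
  have hEmono : Monotone E := by
    intro a b hab x hx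
    exact lt_of_lt_of_le (show 0 < bmax T g a x from hx) (bmax_mono T g x hab)
  have hsub : {x | ∃ k : ℕ, t < birkhoffAverage ℝ T f (k + 1) x} ⊆ ⋃ n, E n := by
    rintro x ⟨k, hk⟩
    rw [mem_iUnion]
    refine ⟨k, ?_⟩
    have h1 := birkhoffSum_le_bmax T g k k le_rfl x
    refine lt_of_lt_of_le ?_ h1
    have h2 : birkhoffSum T g (k + 1) x = birkhoffSum T f (k + 1) x - (k + 1) * t := by
      simp [birkhoffSum, hgdef, Finset.sum_sub_distrib]
    rw [h2]
    rw [birkhoffAverage, smul_eq_mul, lt_inv_mul_iff₀ (by positivity)] at hk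
    push_cast at hk
    linarith
  refine (measure_mono hsub).trans ?_
  rw [hEmono.measure_iUnion]
  refine iSup_le (fun n => ?_)
  have h1 := maximal_ergodic hT hgm hgi n
  have h2 : ∫ x in E n, g x ∂μ = ∫ x in E n, f x ∂μ - t * μ.real (E n) := by
    have : ∫ x in E n, g x ∂μ = ∫ x in E n, f x ∂μ - ∫ x in E n, t ∂μ :=
      integral_sub hf.integrableOn (integrable_const t).integrableOn
    rw [this, setIntegral_const, smul_eq_mul]; ring
  have h3 : ∫ x in E n, f x ∂μ ≤ ∫ x, f x ∂μ :=
    setIntegral_le_integral hf (Eventually.of_forall hf0)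
  have h4 : μ.real (E n) ≤ (∫ x, f x ∂μ) / t := by
    rw [le_div_iff₀ ht]
    have h1' : 0 ≤ ∫ x in E n, g x ∂μ := h1
    rw [h2] at h1'
    linarith
  rw [← ofReal_measureReal]
  exact ENNReal.ofReal_le_ofReal h4

/-- weak type (p,p) inequality -/
theorem weak_p_p [IsFiniteMeasure μ] (hT : MeasurePreserving T μ μ)
    {f : X → ℝ} (hfm : Measurable f) (hf0 : ∀ x, 0 ≤ f x) {p : ℝ} (hp : 1 < p)
    (hfp : Integrable (fun x => f x ^ p) μ) {t : ℝ} (ht : 0 < t) :
    μ {x | ∃ k : ℕ, t < birkhoffAverage ℝ T f (k + 1) x} ≤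
      ENNReal.ofReal ((∫ x, f x ^ p ∂μ) * (t / 2) ^ (-p)) := by
  set h : X → ℝ := {x | t / 2 < f x}.indicator f with hh
  have hSm : MeasurableSet {x | t / 2 < f x} := measurableSet_lt measurable_const hfm
  have hhm : Measurable h := hfm.indicator hSm
  have hh0 : ∀ x, 0 ≤ h x := fun x => indicator_nonneg (fun y _ => hf0 y) x
  have ht2 : 0 < t / 2 := by positivity
  have hpt : ∀ x, h x ≤ f x ^ p * (t / 2) ^ (1 - p) := by
    intro x
    rw [hh]
    by_cases hx : t / 2 < f x
    · rw [indicator_of_mem (show x ∈ {x | t / 2 < f x} from hx)]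
      have hfx : 0 < f x := ht2.trans hx
      calc f x = f x ^ p * f x ^ (1 - p) := by
            rw [← Real.rpow_add hfx]; simp
        _ ≤ f x ^ p * (t / 2) ^ (1 - p) := by
            apply mul_le_mul_of_nonneg_left _ (Real.rpow_nonneg hfx.le _)
            exact Real.rpow_le_rpow_of_nonpos ht2 hx.le (by linarith)
    · rw [indicator_of_notMem (show x ∉ {x | t / 2 < f x} from hx)]
      have := hf0 x
      positivity
  have hbi : Integrable (fun x => f x ^ p * (t / 2) ^ (1 - p)) μ := hfp.mul_const _
  have hhi : Integrable h μ := by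
    refine hbi.mono' hhm.aestronglyMeasurable (Eventually.of_forall (fun x => ?_))
    rw [Real.norm_eq_abs, abs_of_nonneg (hh0 x)]
    exact hpt x
  have hsub : {x | ∃ k : ℕ, t < birkhoffAverage ℝ T f (k + 1) x} ⊆
      {x | ∃ k : ℕ, t / 2 < birkhoffAverage ℝ T h (k + 1) x} := by
    rintro x ⟨k, hk⟩
    refine ⟨k, ?_⟩
    rw [birkhoffAverage, smul_eq_mul, lt_inv_mul_iff₀ (by positivity)] at hk ⊢
    have h1 : birkhoffSum T f (k + 1) x ≤ (k + 1 : ℕ) * (t / 2) + birkhoffSum T h (k + 1) x := by
      have h2 : ((k + 1 : ℕ) : ℝ) * (t / 2) = ∑ i ∈ Finset.range (k + 1), t / 2 := by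
        simp
      rw [h2, birkhoffSum, birkhoffSum, ← Finset.sum_add_distrib]
      apply Finset.sum_le_sum
      intro i _
      rw [hh]
      by_cases hx : t / 2 < f (T^[i] x)
      · rw [indicator_of_mem (show T^[i] x ∈ {x | t / 2 < f x} from hx)]
        linarith
      · rw [indicator_of_notMem (show T^[i] x ∉ {x | t / 2 < f x} from hx)]
        linarith [not_lt.1 hx]
    linarith
  refine (measure_mono hsub).trans ((weak_one_one hT hhm hhi hh0 ht2).trans ?_)
  apply ENNReal.ofReal_le_ofReal
  rw [div_le_iff₀ ht2]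
  have h3 : ∫ x, h x ∂μ ≤ ∫ x, f x ^ p * (t / 2) ^ (1 - p) ∂μ := integral_mono hhi hbi hpt
  rw [integral_mul_const] at h3
  have h4 : (t / 2) ^ (1 - p) = (t / 2) ^ (-p) * (t / 2) := by
    rw [sub_eq_neg_add, Real.rpow_add ht2, Real.rpow_one]
  rw [h4, ← mul_assoc] at h3
  exact h3

/-- the ergodic maximal function of a nonnegative `L^p` function, `p > 1`, is integrable -/
theorem lintegral_maximal_lt_top [IsProbabilityMeasure μ] (hT : MeasurePreserving T μ μ)
    {f : X → ℝ} (hfm : Measurable f) (hf0 : ∀ x, 0 ≤ f x) {p : ℝ} (hp : 1 < p)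
    (hfp : Integrable (fun x => f x ^ p) μ) :
    ∫⁻ x, ⨆ k : ℕ, ENNReal.ofReal (birkhoffAverage ℝ T f (k + 1) x) ∂μ < ∞ := by
  set A : ℕ → X → ℝ := fun k x => birkhoffAverage ℝ T f (k + 1) x with hA
  have hA0 : ∀ k x, 0 ≤ A k x := by
    intro k x
    simp only [hA, birkhoffAverage, smul_eq_mul, birkhoffSum]
    have : 0 ≤ ∑ i ∈ Finset.range (k + 1), f (T^[i] x) := Finset.sum_nonneg (fun i _ => hf0 _)
    positivity
  have hAm : ∀ k, Measurable (A k) := by
    intro k
    simp only [hA, birkhoffAverage, smul_eq_mul, birkhoffSum]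
    apply Measurable.const_mul
    apply Finset.measurable_sum
    intro i _
    exact hfm.comp (hT.measurable.iterate i)
  set M : ℕ → X → ℝ := fun n x => (Finset.range (n + 1)).sup' ⟨0, by simp⟩ (fun k => A k x) with hM
  have hMm : ∀ n, Measurable (M n) := by
    intro n
    have := Finset.measurable_range_sup'' (f := A) (n := n) (fun k _ => hAm k)
    simpa [hM] using this
  have hM0 : ∀ n x, 0 ≤ M n x := by
    intro n x
    exact (hA0 0 x).trans (Finset.le_sup' (fun k => A k x) (by simp))
  have hMmono : ∀ x, Monotone (fun n => M n x) := by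
    intro x a b hab
    apply Finset.sup'_mono
    intro i hi
    simp only [Finset.mem_range] at hi ⊢
    omega
  set C : ℝ := ∫ x, f x ^ p ∂μ with hC
  have hC0 : 0 ≤ C := integral_nonneg (fun x => Real.rpow_nonneg (hf0 x) _)
  set K : ℝ≥0∞ := 1 + ∫⁻ t in Ioi (1:ℝ), ENNReal.ofReal (C * (t / 2) ^ (-p)) with hK
  have hKtop : K < ∞ := by
    have h1 : IntegrableOn (fun t : ℝ => C * (t / 2) ^ (-p)) (Ioi 1) := by
      have h2 : IntegrableOn (fun t : ℝ => t ^ (-p)) (Ioi 1) :=
        integrableOn_Ioi_rpow_of_lt (by linarith) one_pos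
      have h3 : IntegrableOn (fun t : ℝ => (C * 2 ^ p) * t ^ (-p)) (Ioi 1) := h2.const_mul _
      refine h3.congr_fun (fun t ht => ?_) measurableSet_Ioi
      have ht0 : (0:ℝ) < t := lt_trans one_pos ht
      rw [Real.div_rpow ht0.le (by norm_num), Real.rpow_neg (by norm_num : (0:ℝ) ≤ 2)]
      field_simp
    rw [hK]
    refine ENNReal.add_lt_top.2 ⟨ENNReal.one_lt_top, ?_⟩
    exact h1.lintegral_lt_top
  have hbound : ∀ n, ∫⁻ x, ENNReal.ofReal (M n x) ∂μ ≤ K := by
    intro n
    rw [lintegral_eq_lintegral_meas_lt μ (Eventually.of_forall (hM0 n)) (hMm n).aemeasurable]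
    have hsplit : Ioi (0:ℝ) = Ioc 0 1 ∪ Ioi 1 := (Ioc_union_Ioi_eq_Ioi zero_le_one).symm
    rw [hsplit]
    refine (lintegral_union_le _ _ _).trans ?_
    refine add_le_add ?_ ?_
    · calc ∫⁻ t in Ioc (0:ℝ) 1, μ {a | t < M n a} ≤ ∫⁻ t in Ioc (0:ℝ) 1, 1 := by
            apply lintegral_mono
            intro t
            exact prob_le_one
        _ = 1 := by simp
    · apply setLIntegral_mono' measurableSet_Ioi
      intro t ht
      have ht0 : (0:ℝ) < t := lt_trans one_pos ht
      refine (measure_mono ?_).trans (weak_p_p hT hfm hf0 hp hfp ht0)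
      intro x hx
      have hx' : t < M n x := hx
      obtain ⟨k, _, hk⟩ := (Finset.lt_sup'_iff _).1 hx'
      exact ⟨k, hk⟩
  have hle : ∫⁻ x, ⨆ k : ℕ, ENNReal.ofReal (A k x) ∂μ ≤ ∫⁻ x, ⨆ n : ℕ, ENNReal.ofReal (M n x) ∂μ := by
    apply lintegral_mono
    intro x
    apply iSup_mono
    intro k
    apply ENNReal.ofReal_le_ofReal
    exact Finset.le_sup' (fun k => A k x) (by simp)
  refine (hle.trans ?_).trans_lt hKtop
  rw [lintegral_iSup (fun n => (hMm n).ennreal_ofReal)
    (fun a b hab x => ENNReal.ofReal_le_ofReal (hMmono x hab))]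
  exact iSup_le hbound

/-- Birkhoff's pointwise ergodic theorem for real or complex functions -/
theorem birkhoff_rclike [IsFiniteMeasure μ] (hT : MeasurePreserving T μ μ)
    {𝕜 : Type*} [RCLike 𝕜] {f : X → 𝕜} (hfm : Measurable f) (hf : Integrable f μ) :
    ∀ᵐ x ∂μ, Tendsto (fun n => birkhoffAverage 𝕜 T f n x) atTop
      (𝓝 ((μ[f | MeasurableSpace.invariants T]) x)) := by
  have hre := birkhoff_real hT (f := fun x => RCLike.re (f x)) (RCLike.measurable_re.comp hfm) hf.re
  have him := birkhoff_real hT (f := fun x => RCLike.im (f x)) (RCLike.measurable_im.comp hfm) hf.im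
  have cre := (RCLike.reCLM (K := 𝕜)).comp_condExp_comm (m := MeasurableSpace.invariants T) hf
  have cim := (RCLike.imCLM (K := 𝕜)).comp_condExp_comm (m := MeasurableSpace.invariants T) hf
  filter_upwards [hre, him, cre, cim] with x h1 h2 h3 h4
  have h3' : RCLike.re ((μ[f | MeasurableSpace.invariants T]) x) =
      (μ[fun x => RCLike.re (f x) | MeasurableSpace.invariants T]) x := h3
  have h4' : RCLike.im ((μ[f | MeasurableSpace.invariants T]) x) =
      (μ[fun x => RCLike.im (f x) | MeasurableSpace.invariants T]) x := h4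
  rw [← h3'] at h1
  rw [← h4'] at h2
  have e1 : ∀ n, birkhoffAverage ℝ T (fun x => RCLike.re (f x)) n x =
      RCLike.re (birkhoffAverage 𝕜 T f n x) := fun n =>
    (map_birkhoffAverage 𝕜 ℝ (RCLike.reCLM (K := 𝕜)) T f n x).symm
  have e2 : ∀ n, birkhoffAverage ℝ T (fun x => RCLike.im (f x)) n x =
      RCLike.im (birkhoffAverage 𝕜 T f n x) := fun n =>
    (map_birkhoffAverage 𝕜 ℝ (RCLike.imCLM (K := 𝕜)) T f n x).symm
  simp only [e1] at h1
  simp only [e2] at h2
  have h5 := ((RCLike.continuous_ofReal (K := 𝕜)).tendsto _).comp h1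
  have h6 := (((RCLike.continuous_ofReal (K := 𝕜)).tendsto _).comp h2).mul_const (RCLike.I : 𝕜)
  have h7 := h5.add h6
  simpa [Function.comp_def, RCLike.re_add_im] using h7

end birkhoff

/-- The Lebesgue differentiation property of a measure on a metric space: for every integrable
`f`, the averages of `f` over the balls `B(x,r)` tend to `f x` as `r ↘ 0`, for a.e. `x`. -/
def LebesgueDifferentiationProperty {X : Type*} [MetricSpace X] [MeasurableSpace X]
    (μ : Measure X) : Prop :=
  ∀ f : X → ℝ, Integrable f μ →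
    ∀ᵐ x ∂μ, Tendsto (fun r : ℝ => ⨍ y in Metric.ball x r, f y ∂μ) (𝓝[>] 0) (𝓝 (f x))

/-- If `μ` has the Lebesgue differentiation property, then for every `μ`-preserving `T`,
every `p > 1` and every `f ∈ L^p`, the averages over `B(x,r)` of the ergodic averages `A_k f`
converge jointly, as `r ↘ 0` and `k → ∞`, to `E[f | invariant sets]` for a.e. `x`. -/
theorem result {X : Type*} [MetricSpace X] [MeasurableSpace X] [BorelSpace X]
    (μ : Measure X) [IsProbabilityMeasure μ] (hμ : LebesgueDifferentiationProperty μ)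
    (T : X → X) (hT : MeasurePreserving T μ μ)
    {𝕜 : Type*} [RCLike 𝕜] (p : ℝ≥0∞) (hp : 1 < p) (f : X → 𝕜) (hf : MemLp f p μ) :
    ∀ᵐ x ∂μ, Tendsto
      (fun q : ℝ × ℕ => ⨍ y in Metric.ball x q.1, birkhoffAverage 𝕜 T f q.2 y ∂μ)
      (𝓝[>] 0 ×ˢ atTop) (𝓝 ((μ[f | MeasurableSpace.invariants T]) x)) := by
  -- reduction to a finite exponent
  obtain ⟨q, hq1, hfq⟩ : ∃ q : ℝ, 1 < q ∧ MemLp f (ENNReal.ofReal q) μ := by
    rcases eq_or_ne p ∞ with rfl | hp'
    · exact ⟨2, by norm_num, hf.mono_exponent le_top⟩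
    · refine ⟨p.toReal, ?_, ?_⟩
      · rw [← ENNReal.toReal_one]
        exact (ENNReal.toReal_lt_toReal ENNReal.one_ne_top hp').2 hp
      · rwa [ENNReal.ofReal_toReal hp']
  -- reduction to a measurable function
  have hfi : Integrable f μ := hf.integrable hp.le
  set F : X → 𝕜 := hfi.1.mk f with hF
  have hFm : Measurable F := hfi.1.stronglyMeasurable_mk.measurable
  have hfF : f =ᵐ[μ] F := hfi.1.ae_eq_mk
  have hFi : Integrable F μ := hfi.congr hfF
  have hFq : MemLp F (ENNReal.ofReal q) μ := hfq.ae_eq hfF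
  have hcond : μ[f | MeasurableSpace.invariants T] =ᵐ[μ] μ[F | MeasurableSpace.invariants T] :=
    condExp_congr_ae hfF
  set c : X → 𝕜 := μ[F | MeasurableSpace.invariants T] with hc
  have hcm : Measurable c :=
    (stronglyMeasurable_condExp.mono (MeasurableSpace.invariants_le T)).measurable
  have hci : Integrable c μ := integrable_condExp
  have hq0 : (0:ℝ) < q := by linarith
  have hnq : Integrable (fun x => ‖F x‖ ^ q) μ := by
    have := hFq.integrable_norm_rpow (by simpa using hq0) (by simp)
    rwa [ENNReal.toReal_ofReal hq0.le] at this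
  have hnm : Measurable (fun x => ‖F x‖) := hFm.norm
  -- the ergodic averages
  set A : ℕ → X → 𝕜 := fun k => birkhoffAverage 𝕜 T F k with hA
  have hAm : ∀ k, Measurable (A k) := by
    intro k
    have h : Measurable (fun x => ∑ i ∈ Finset.range k, F (T^[i] x)) :=
      Finset.measurable_fun_sum _ (fun i _ => hFm.comp (hT.measurable.iterate i))
    exact h.const_smul ((k : 𝕜)⁻¹)
  have hAi : ∀ k, Integrable (A k) μ := by
    intro k
    have h : Integrable (fun x => ∑ i ∈ Finset.range k, F (T^[i] x)) μ :=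
      integrable_finsetSum _ (fun i _ => (hT.iterate i).integrable_comp_of_integrable hFi)
    exact h.smul ((k : 𝕜)⁻¹)
  have hAnorm : ∀ k x, ‖A k x‖ ≤ birkhoffAverage ℝ T (fun x => ‖F x‖) k x := by
    intro k x
    simp only [hA, birkhoffAverage, birkhoffSum]
    rw [norm_smul, norm_inv, RCLike.norm_natCast, smul_eq_mul]
    apply mul_le_mul_of_nonneg_left (norm_sum_le _ _)
    positivity
  -- the tails of the maximal function
  set G : ℕ → X → ℝ≥0∞ := fun K x => ⨆ k : ℕ, ‖A (K + k) x - c x‖ₑ with hG
  have hGm : ∀ K, Measurable (G K) := by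
    intro K
    exact Measurable.iSup (fun k => ((hAm (K + k)).sub hcm).enorm)
  have hGanti : ∀ K x, G K x ≤ G 0 x := by
    intro K x
    apply iSup_le
    intro k
    refine le_trans ?_ (le_iSup _ (K + k))
    simp
  have hG0 : ∫⁻ x, G 0 x ∂μ < ∞ := by
    have h1 : ∀ x, G 0 x ≤
        (⨆ k : ℕ, ENNReal.ofReal (birkhoffAverage ℝ T (fun x => ‖F x‖) (k + 1) x)) + ‖c x‖ₑ := by
      intro x
      apply iSup_le
      intro k
      rw [zero_add]
      refine (enorm_sub_le).trans ?_
      gcongr
      cases k with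
      | zero => simp [hA]
      | succ k =>
        refine le_trans ?_ (le_iSup _ k)
        rw [← ofReal_norm]
        exact ENNReal.ofReal_le_ofReal (hAnorm (k + 1) x)
    refine (lintegral_mono h1).trans_lt ?_
    rw [lintegral_add_right _ hcm.enorm]
    exact ENNReal.add_lt_top.2
      ⟨lintegral_maximal_lt_top hT hnm (fun x => norm_nonneg _) hq1 hnq, hci.2⟩
  have hGlt : ∀ K, ∫⁻ x, G K x ∂μ < ∞ := fun K => (lintegral_mono (hGanti K)).trans_lt hG0
  have hGfin : ∀ᵐ x ∂μ, G 0 x < ∞ := ae_lt_top (hGm 0) hG0.ne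
  have hGi : ∀ K, Integrable (fun x => (G K x).toReal) μ := fun K =>
    integrable_toReal_of_lintegral_ne_top (hGm K).aemeasurable (hGlt K).ne
  -- the differentiation property for the tails and for the limit function
  have hD1 : ∀ᵐ x ∂μ, ∀ K, Tendsto (fun r : ℝ => ⨍ y in Metric.ball x r, (G K y).toReal ∂μ)
      (𝓝[>] 0) (𝓝 ((G K x).toReal)) := by
    rw [ae_all_iff]
    intro K
    exact hμ _ (hGi K)
  have hD2 : ∀ᵐ x ∂μ, Tendsto (fun r : ℝ => ⨍ y in Metric.ball x r, c y ∂μ)
      (𝓝[>] 0) (𝓝 (c x)) := by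
    have h1 := hμ _ hci.re
    have h2 := hμ _ hci.im
    filter_upwards [h1, h2] with x h1 h2
    have e1 : ∀ r : ℝ, ⨍ y in Metric.ball x r, RCLike.re (c y) ∂μ =
        RCLike.re (⨍ y in Metric.ball x r, c y ∂μ) := by
      intro r
      rw [setAverage_eq, setAverage_eq, integral_re hci.integrableOn, RCLike.smul_re, smul_eq_mul]
    have e2 : ∀ r : ℝ, ⨍ y in Metric.ball x r, RCLike.im (c y) ∂μ =
        RCLike.im (⨍ y in Metric.ball x r, c y ∂μ) := by
      intro r
      rw [setAverage_eq, setAverage_eq, integral_im hci.integrableOn, RCLike.smul_im, smul_eq_mul]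
    simp only [e1] at h1
    simp only [e2] at h2
    have h5 := ((RCLike.continuous_ofReal (K := 𝕜)).tendsto _).comp h1
    have h6 := (((RCLike.continuous_ofReal (K := 𝕜)).tendsto _).comp h2).mul_const (RCLike.I : 𝕜)
    have h7 := h5.add h6
    simpa [Function.comp_def, RCLike.re_add_im] using h7
  have hBir := birkhoff_rclike hT hFm hFi
  -- the pointwise bound for the averages over the balls
  have hbound : ∀ (x : X) (r : ℝ) (K k : ℕ), K ≤ k →
      ‖⨍ y in Metric.ball x r, birkhoffAverage 𝕜 T f k y ∂μ - ⨍ y in Metric.ball x r, c y ∂μ‖ ≤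
        ⨍ y in Metric.ball x r, (G K y).toReal ∂μ := by
    intro x r K k hKk
    have e1 : ⨍ y in Metric.ball x r, birkhoffAverage 𝕜 T f k y ∂μ =
        ⨍ y in Metric.ball x r, A k y ∂μ := by
      rw [setAverage_eq, setAverage_eq]
      congr 1
      apply integral_congr_ae
      exact ae_restrict_of_ae
        (hT.quasiMeasurePreserving.birkhoffAverage_ae_eq_of_ae_eq 𝕜 hfF k)
    rw [e1, setAverage_eq, setAverage_eq, setAverage_eq, ← smul_sub, norm_smul, norm_inv,
      Real.norm_eq_abs, abs_of_nonneg measureReal_nonneg, smul_eq_mul]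
    apply mul_le_mul_of_nonneg_left _ (by positivity)
    rw [← integral_sub (hAi k).integrableOn hci.integrableOn]
    refine norm_integral_le_of_norm_le (hGi K).integrableOn ?_
    apply ae_restrict_of_ae
    filter_upwards [hGfin] with y hy
    have h1 : ‖A k y - c y‖ₑ ≤ G K y := by
      obtain ⟨j, rfl⟩ := Nat.exists_eq_add_of_le hKk
      exact le_iSup (fun j => ‖A (K + j) y - c y‖ₑ) j
    have h2 : G K y ≠ ∞ := ((hGanti K y).trans_lt hy).ne
    rw [← toReal_enorm]
    exact ENNReal.toReal_mono h2 h1
  filter_upwards [hD1, hD2, hBir, hGfin, hcond] with x h1 h2 h3 h4 h5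
  rw [h5, Metric.tendsto_nhds]
  intro ε hε
  -- choose `K` with `G K x < ε / 3`
  obtain ⟨K, hK⟩ : ∃ K, (G K x).toReal < ε / 3 := by
    have h6 := Metric.tendsto_nhds.1 h3 (ε / 4) (by positivity)
    obtain ⟨K, hK⟩ := eventually_atTop.1 h6
    refine ⟨K, ?_⟩
    have h7 : G K x ≤ ENNReal.ofReal (ε / 4) := by
      apply iSup_le
      intro k
      have := hK (K + k) (by omega)
      rw [dist_eq_norm] at this
      rw [← ofReal_norm]
      exact ENNReal.ofReal_le_ofReal this.le
    calc (G K x).toReal ≤ (ENNReal.ofReal (ε / 4)).toReal :=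
          ENNReal.toReal_mono ENNReal.ofReal_ne_top h7
      _ = ε / 4 := ENNReal.toReal_ofReal (by positivity)
      _ < ε / 3 := by linarith
  have h6 : ∀ᶠ r in 𝓝[>] (0:ℝ), ⨍ y in Metric.ball x r, (G K y).toReal ∂μ < ε / 3 :=
    (h1 K).eventually (gt_mem_nhds hK)
  have h7 : ∀ᶠ r in 𝓝[>] (0:ℝ), dist (⨍ y in Metric.ball x r, c y ∂μ) (c x) < ε / 3 :=
    Metric.tendsto_nhds.1 h2 (ε / 3) (by positivity)
  have h8 := (h6.and h7).prod_mk (eventually_ge_atTop K)
  filter_upwards [h8] with q hq
  obtain ⟨⟨ha, hb⟩, hk⟩ := hq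
  have h9 := hbound x q.1 K q.2 hk
  rw [dist_eq_norm] at hb ⊢
  calc ‖⨍ y in Metric.ball x q.1, birkhoffAverage 𝕜 T f q.2 y ∂μ - c x‖
      ≤ ‖⨍ y in Metric.ball x q.1, birkhoffAverage 𝕜 T f q.2 y ∂μ -
          ⨍ y in Metric.ball x q.1, c y ∂μ‖ + ‖⨍ y in Metric.ball x q.1, c y ∂μ - c x‖ :=
        norm_sub_le_norm_sub_add_norm_sub _ _ _
    _ < ε := by linarith

end Pool.Agent.Results.MP_894476_an.JointLimit
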